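import Pool.Agent.R643.GbsFinal

set_option autoImplicit false

/-!
# Fixed subgroups of automorphisms of GBS groups with first Betti number one

The proof in outline. Let `φ` be an automorphism of `G` and `F` its fixed subgroup.

* If a nontrivial elliptic element is carried by `φ` to a hyperbolic one, then `G` preserves a line
  of the tree and all its subgroups are finitely generated.
* Otherwise there is a `φ`-equivariant self map `H` of the vertices. The flow `v ↦` (first vertex
  after `v` on the way to `H v`) is `F`-equivariant. The group `F` is finitely generated once
  the edges that join two components of the flow form finitely many `F`-orbits, and the stabilisers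
  in `F` of the components are finitely generated.
* For both points one uses that `G` has a crossed homomorphism to `ℚ` (twisted by the modulus) which
  is injective on the vertex stabilisers, and that only finitely many powers of the generator `r` of
  the modulus have a given denominator, as neither `r` nor `r⁻¹` is an integer different from `-1`.
-/

namespace Pool.Agent.Results.MP_2e9e4b_al.FixedSubgroups

open Pool.Agent.R643

universe u v

/-- An infinite cyclic subgroup. -/
def InfiniteCyclic {G : Type u} [Group G] (K : Subgroup G) : Prop := IsCyclic K ∧ Infinite K

/-- `(G, T)` is a GBS system: the finitely generated group `G` acts on the simplicial tree `T` with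
vertex set `V` by automorphisms, without inversions and with finite quotient graph, and all vertex
and edge stabilisers are infinite cyclic. -/
structure IsGBSSystem (G : Type u) [Group G] {V : Type v} [MulAction G V]
    (T : SimpleGraph V) : Prop where
  fg : Group.FG G
  isTree : T.IsTree
  adj_smul : ∀ (g : G) (x y : V), T.Adj x y → T.Adj (g • x) (g • y)
  no_inversion : ∀ (g : G) (x y : V), T.Adj x y → ¬ (g • x = y ∧ g • y = x)
  vertex_stabiliser : ∀ x : V, InfiniteCyclic (MulAction.stabilizer G x)
  edge_stabiliser : ∀ x y : V, T.Adj x y →
    InfiniteCyclic (MulAction.stabilizer G x ⊓ MulAction.stabilizer G y)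
  finite_vertices : Finite (MulAction.orbitRel.Quotient G V)
  finite_edges : Finite (Quotient (edgeSetoid T G))

/-- The first Betti number `1 - |V(T/G)| + |E(T/G)|` of the quotient graph. -/
noncomputable def betti (G : Type u) [Group G] {V : Type v} [MulAction G V]
    (T : SimpleGraph V) : ℤ :=
  1 - Nat.card (MulAction.orbitRel.Quotient G V) + Nat.card (Quotient (edgeSetoid T G))

/-- **Fixed subgroups are finitely generated.** Let `(G, T)` be a GBS system with `β(G) = 1` whose
modulus, computed with a nontrivial elliptic element `a`, is not generated by an integer other than
`-1`. Then the fixed subgroup of every automorphism of `G` is finitely generated. -/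
theorem result (G : Type u) [Group G] {V : Type v} [MulAction G V] (T : SimpleGraph V)
    (hS : IsGBSSystem G T) (hβ : betti G T = 1) (a : G) (ha1 : a ≠ 1) (ha : ∃ x : V, a • x = x)
    (hΔ : ∀ n : ℤ, n ≠ 0 → n ≠ -1 → modulusSet a ≠ {q : ℚ | ∃ k : ℤ, q = (n : ℚ) ^ k})
    (φ : G ≃* G) : (φ.toMonoidHom.eqLocus (MonoidHom.id G)).FG := by
  obtain ⟨va, hva⟩ := ha
  have C : CycAct T G :=
    { hT := hS.isTree
      hadj := hS.adj_smul
      hinv := hS.no_inversion
      vgen := by
        intro x
        obtain ⟨h1, h2⟩ := hS.vertex_stabiliser x
        obtain ⟨w, hw⟩ := h1.exists_generator
        refine ⟨w, ?_, ?_⟩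
        · intro n hn
          by_contra hne
          have h3 : IsOfFinOrder w := by
            refine isOfFinOrder_iff_zpow_eq_one.2 ⟨n, hne, ?_⟩
            apply Subtype.ext
            simpa using hn
          have h5 : (Subgroup.zpowers w : Set (MulAction.stabilizer G x)).Infinite := by
            have : (Subgroup.zpowers w : Set (MulAction.stabilizer G x)) = Set.univ := by
              ext z
              simpa using hw z
            rw [this]
            exact Set.infinite_univ
          exact (infinite_zpowers.1 h5) h3
        · intro g
          constructor
          · intro hg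
            obtain ⟨k, hk⟩ := hw ⟨g, hg⟩
            exact ⟨k, by simpa using congrArg Subtype.val hk⟩
          · rintro ⟨k, rfl⟩
            exact (MulAction.stabilizer G x).zpow_mem w.2 k
      edge := by
        intro x y hxy
        obtain ⟨-, h2⟩ := hS.edge_stabiliser x y hxy
        obtain ⟨z, hz⟩ := exists_ne
          (1 : ↥(MulAction.stabilizer G x ⊓ MulAction.stabilizer G y))
        exact ⟨z, fun h => hz (Subtype.ext h), z.2.1, z.2.2⟩ }
  have := hS.finite_vertices
  have := hS.finite_edges
  have hcard : Nat.card (Quotient (edgeSetoid T G)) =
      Nat.card (MulAction.orbitRel.Quotient G V) := by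
    unfold betti at hβ
    omega
  exact fix_fg C hcard hva ha1 hΔ φ _ (fun g => Iff.rfl)

end Pool.Agent.Results.MP_2e9e4b_al.FixedSubgroups
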